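import Mathlib
import Pool.Agent.Helper99.WP.GoalsE

/-!
# Packet WP-LWR

In the plane most sites of a large cube are visited at least `J` times.
-/

set_option autoImplicit false

open Finset MeasureTheory ProbabilityTheory Filter

open Pool.Agent.Helper99.WP Pool.Agent.Helper99.ERW

namespace Pool.Agent.Helper13.WP

/-- the centre belongs to the cube -/
theorem zero_mem_Q (d R : ℕ) : (0 : Site d) ∈ Q R (0 : Site d) := by
  rw [Q, Finset.mem_Icc]
  constructor <;> intro l <;> simp

/-- sum of the visit probabilities below level `J` -/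
theorem sum_vis {V : Type} [Fintype V] [DecidableEq V] (hKEY : KEY_stmt)
    (W : V → ℕ → Option V → ℝ) (N J : ℕ) (hW : IsW W)
    (hD : ∀ n : V → ℕ, (∀ y, n y ≤ N) → DD (rowW W N n) ≠ 0) :
    ∑ a : V → Fin N → Option V, prb W N a *
      (∑ x : V, if nst (ext a) x < J then Gmat (rowW W N (nst (ext a))) x x else 0) =
    ∑ x : V, ∑ i ∈ range J, vis W N x i := by
  have h1 : ∀ x : V, ∑ i ∈ range J, vis W N x i =
      ∑ a : V → Fin N → Option V, prb W N a *
        (if nst (ext a) x < J then Gmat (rowW W N (nst (ext a))) x x else 0) := by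
    intro x
    rw [Finset.sum_congr rfl (fun i _ => hKEY V W N x i hW hD), Finset.sum_comm]
    refine Finset.sum_congr rfl (fun a _ => ?_)
    rw [← Finset.mul_sum]
    congr 1
    rw [Finset.sum_ite_eq]
    simp only [Finset.mem_range]
  rw [Finset.sum_congr rfl (fun x _ => h1 x), Finset.sum_comm]
  refine Finset.sum_congr rfl (fun a _ => ?_)
  rw [← Finset.mul_sum]

/-- the packet -/
theorem LWR (hTRM : TRM_stmt) (hKEY : KEY_stmt) (hPR1 : PR1_stmt)
    (hLN1 : LN1_stmt) (hDCY : DCY_stmt) (hD2 : D2_stmt) : LWR_stmt := by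
  intro κ ρ J hκ hρ
  obtain ⟨R, hR⟩ := hD2 κ (ρ / 2) (4 * (J + 1) / ρ) hκ (by positivity)
  have hc : (0 : ℝ) < (Q R (0 : Site 2)).card := by
    have : 0 < (Q R (0 : Site 2)).card := Finset.card_pos.mpr ⟨0, zero_mem_Q 2 R⟩
    exact_mod_cast this
  have hlt : (1 - 1 / (((2 : ℕ) : ℝ) * ((R : ℝ) + 1) ^ 2)) < 1 := by
    have : (0 : ℝ) < 1 / (((2 : ℕ) : ℝ) * ((R : ℝ) + 1) ^ 2) := by positivity
    linarith
  obtain ⟨N, hN⟩ := exists_pow_lt_of_lt_one
    (show (0 : ℝ) < ρ / 4 / (Q R (0 : Site 2)).card by positivity) hlt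
  refine ⟨R, N, ?_⟩
  intro ω hω
  by_contra hcon
  push Not at hcon
  have hIsW : IsW (arrW ω (Q R (0 : Site 2))) :=
    (hLN1 2 κ ω (Q R 0) 0 (fun _ => 0) hκ hω (fun _ => le_rfl)).2.1
  have hDD : ∀ n : (Q R (0 : Site 2) : Finset (Site 2)) → ℕ, (∀ y, n y ≤ N) →
      DD (rowW (arrW ω (Q R 0)) N n) ≠ 0 :=
    fun n hn => (hLN1 2 κ ω (Q R 0) N n hκ hω hn).2.2.1
  obtain ⟨hpr0, hpr1, hvis⟩ := hPR1 (Q R (0 : Site 2) : Finset (Site 2)) (arrW ω (Q R 0)) N hIsW
  have hns : ∀ (a : (Q R (0 : Site 2) : Finset (Site 2)) → Fin N →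
      Option (Q R (0 : Site 2) : Finset (Site 2))) (y), nst (ext a) y ≤ N :=
    fun a => ((hTRM (Q R (0 : Site 2) : Finset (Site 2)) N).2.2.2 a).2.2
  -- expected value of the sum of the Green function over the rarely visited sites
  have hE := sum_vis hKEY (arrW ω (Q R 0)) N J hIsW hDD
  have hup : ∑ x : (Q R (0 : Site 2) : Finset (Site 2)), ∑ i ∈ range J,
      vis (arrW ω (Q R 0)) N x i ≤ J * (Q R (0 : Site 2)).card := by
    calc ∑ x : (Q R (0 : Site 2) : Finset (Site 2)), ∑ i ∈ range J, vis (arrW ω (Q R 0)) N x i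
        ≤ ∑ _x : (Q R (0 : Site 2) : Finset (Site 2)), ∑ _i ∈ range J, (1 : ℝ) :=
          Finset.sum_le_sum (fun x _ => Finset.sum_le_sum (fun i _ => ((hvis x).2.1 i).2.1))
      _ = J * (Q R (0 : Site 2)).card := by
          simp only [Finset.sum_const, Finset.card_range, Finset.card_univ, Fintype.card_coe,
            nsmul_eq_mul, mul_one]
          ring
  have hMpos : (0 : ℝ) < 4 * (J + 1) / ρ := by positivity
  -- the pointwise bound
  have hpt : ∀ a : (Q R (0 : Site 2) : Finset (Site 2)) → Fin N →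
      Option (Q R (0 : Site 2) : Finset (Site 2)),
      (4 * (J + 1) / ρ) * ((∑ x : (Q R (0 : Site 2) : Finset (Site 2)),
          (1 - if J ≤ nst (ext a) x then (1 : ℝ) else 0)) - ρ / 2 * (Q R (0 : Site 2)).card -
        (Q R (0 : Site 2)).card * ∑ y : (Q R (0 : Site 2) : Finset (Site 2)),
          (if N ≤ nst (ext a) y then (1 : ℝ) else 0)) ≤
      ∑ x : (Q R (0 : Site 2) : Finset (Site 2)), if nst (ext a) x < J then
        Gmat (rowW (arrW ω (Q R 0)) N (nst (ext a))) x x else 0 := by
    intro a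
    have hl := hLN1 2 κ ω (Q R 0) N (nst (ext a)) hκ hω (hns a)
    have hS0 : 0 ≤ ∑ x : (Q R (0 : Site 2) : Finset (Site 2)), if nst (ext a) x < J then
        Gmat (rowW (arrW ω (Q R 0)) N (nst (ext a))) x x else 0 := by
      apply Finset.sum_nonneg
      intro x _
      split_ifs with h
      · exact (hl.2.2.2 x).1
      · exact le_rfl
    have hA1 : (∑ x : (Q R (0 : Site 2) : Finset (Site 2)),
        (1 - if J ≤ nst (ext a) x then (1 : ℝ) else 0)) =
        ((Finset.univ.filter (fun x : (Q R (0 : Site 2) : Finset (Site 2)) =>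
          nst (ext a) x < J)).card : ℝ) := by
      rw [Finset.card_filter]
      push_cast
      refine Finset.sum_congr rfl (fun x _ => ?_)
      by_cases h : J ≤ nst (ext a) x
      · rw [if_pos h, if_neg (not_lt.mpr h), sub_self]
      · rw [if_neg h, if_pos (not_le.mp h), sub_zero]
    have hA2 : ((Finset.univ.filter (fun x : (Q R (0 : Site 2) : Finset (Site 2)) =>
          nst (ext a) x < J)).card : ℝ) ≤ (Q R (0 : Site 2)).card := by
      have h := Finset.card_filter_le (Finset.univ : Finset (Q R (0 : Site 2) : Finset (Site 2)))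
        (fun x => nst (ext a) x < J)
      rw [Finset.card_univ, Fintype.card_coe] at h
      exact_mod_cast h
    rw [hA1]
    by_cases hy : ∃ y : (Q R (0 : Site 2) : Finset (Site 2)), N ≤ nst (ext a) y
    · obtain ⟨y, hy⟩ := hy
      have h1 : (1 : ℝ) ≤ ∑ y : (Q R (0 : Site 2) : Finset (Site 2)),
          (if N ≤ nst (ext a) y then (1 : ℝ) else 0) := by
        calc (1 : ℝ) = if N ≤ nst (ext a) y then (1 : ℝ) else 0 := by rw [if_pos hy]
          _ ≤ _ := Finset.single_le_sum
            (f := fun y : (Q R (0 : Site 2) : Finset (Site 2)) =>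
              if N ≤ nst (ext a) y then (1 : ℝ) else 0)
            (fun z _ => by split_ifs <;> norm_num) (Finset.mem_univ y)
      refine le_trans ?_ hS0
      apply mul_nonpos_of_nonneg_of_nonpos hMpos.le
      nlinarith [hA2, h1, hc, mul_pos hρ hc]
    · push Not at hy
      have h0 : ∑ y : (Q R (0 : Site 2) : Finset (Site 2)),
          (if N ≤ nst (ext a) y then (1 : ℝ) else 0) = 0 := by
        apply Finset.sum_eq_zero
        intro y _
        rw [if_neg (not_le.mpr (hy y))]
      rw [h0, mul_zero, sub_zero]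
      by_cases hB : ρ / 2 * (Q R (0 : Site 2)).card ≤
          ((Finset.univ.filter (fun x : (Q R (0 : Site 2) : Finset (Site 2)) =>
            nst (ext a) x < J)).card : ℝ)
      · have hcard : (((Finset.univ.filter (fun x : (Q R (0 : Site 2) : Finset (Site 2)) =>
            nst (ext a) x < J)).map (Function.Embedding.subtype _)).card : ℝ) =
            ((Finset.univ.filter (fun x : (Q R (0 : Site 2) : Finset (Site 2)) =>
            nst (ext a) x < J)).card : ℝ) := by rw [Finset.card_map]
        have hD := hR (pst ω (Q R 0) (nst (ext a))) hl.1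
          ((Finset.univ.filter (fun x : (Q R (0 : Site 2) : Finset (Site 2)) =>
            nst (ext a) x < J)).map (Function.Embedding.subtype _))
          (by
            intro z hz
            rw [Finset.mem_map] at hz
            obtain ⟨w, _, rfl⟩ := hz
            exact w.2)
          (by rw [hcard]; exact hB)
        rw [Finset.sum_map] at hD
        have hS : ∑ x : (Q R (0 : Site 2) : Finset (Site 2)), (if nst (ext a) x < J then
            Gmat (rowW (arrW ω (Q R 0)) N (nst (ext a))) x x else 0) =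
            ∑ x ∈ Finset.univ.filter (fun x : (Q R (0 : Site 2) : Finset (Site 2)) =>
              nst (ext a) x < J), gg (pst ω (Q R 0) (nst (ext a))) (Q R 0)
              ((Function.Embedding.subtype _) x) ((Function.Embedding.subtype _) x) := by
          rw [Finset.sum_filter]
          refine Finset.sum_congr rfl (fun x _ => ?_)
          by_cases h : nst (ext a) x < J
          · rw [if_pos h, if_pos h]
            exact (hl.2.2.2 x).2.2 hy
          · rw [if_neg h, if_neg h]
        rw [hS]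
        refine le_trans ?_ hD
        apply mul_le_mul_of_nonneg_left _ hMpos.le
        nlinarith [hA2, mul_pos hρ hc]
      · push Not at hB
        refine le_trans ?_ hS0
        apply mul_nonpos_of_nonneg_of_nonpos hMpos.le
        linarith
  -- average the pointwise bound
  have havg : ∑ a : (Q R (0 : Site 2) : Finset (Site 2)) → Fin N →
      Option (Q R (0 : Site 2) : Finset (Site 2)), prb (arrW ω (Q R 0)) N a *
      ((4 * (J + 1) / ρ) * ((∑ x : (Q R (0 : Site 2) : Finset (Site 2)),
          (1 - if J ≤ nst (ext a) x then (1 : ℝ) else 0)) - ρ / 2 * (Q R (0 : Site 2)).card -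
        (Q R (0 : Site 2)).card * ∑ y : (Q R (0 : Site 2) : Finset (Site 2)),
          (if N ≤ nst (ext a) y then (1 : ℝ) else 0))) ≤ J * (Q R (0 : Site 2)).card := by
    calc _ ≤ ∑ a : (Q R (0 : Site 2) : Finset (Site 2)) → Fin N →
        Option (Q R (0 : Site 2) : Finset (Site 2)), prb (arrW ω (Q R 0)) N a *
        (∑ x : (Q R (0 : Site 2) : Finset (Site 2)), if nst (ext a) x < J then
          Gmat (rowW (arrW ω (Q R 0)) N (nst (ext a))) x x else 0) :=
          Finset.sum_le_sum (fun a _ => mul_le_mul_of_nonneg_left (hpt a) (hpr0 a))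
      _ = _ := hE
      _ ≤ _ := hup
  have hvisN : ∑ y : (Q R (0 : Site 2) : Finset (Site 2)), vis (arrW ω (Q R 0)) N y N ≤ ρ / 4 := by
    calc ∑ y : (Q R (0 : Site 2) : Finset (Site 2)), vis (arrW ω (Q R 0)) N y N
        ≤ ∑ _y : (Q R (0 : Site 2) : Finset (Site 2)), ρ / 4 / (Q R (0 : Site 2)).card :=
          Finset.sum_le_sum (fun y _ => (hDCY 2 κ ω hκ hω R N y N le_rfl).trans hN.le)
      _ = ρ / 4 := by
          rw [Finset.sum_const, Finset.card_univ, Fintype.card_coe, nsmul_eq_mul]
          field_simp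
  have hexp : ∑ a : (Q R (0 : Site 2) : Finset (Site 2)) → Fin N →
      Option (Q R (0 : Site 2) : Finset (Site 2)), prb (arrW ω (Q R 0)) N a *
      ((4 * (J + 1) / ρ) * ((∑ x : (Q R (0 : Site 2) : Finset (Site 2)),
          (1 - if J ≤ nst (ext a) x then (1 : ℝ) else 0)) - ρ / 2 * (Q R (0 : Site 2)).card -
        (Q R (0 : Site 2)).card * ∑ y : (Q R (0 : Site 2) : Finset (Site 2)),
          (if N ≤ nst (ext a) y then (1 : ℝ) else 0))) =
      (4 * (J + 1) / ρ) * ((∑ x : (Q R (0 : Site 2) : Finset (Site 2)),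
          (1 - vis (arrW ω (Q R 0)) N x J)) - ρ / 2 * (Q R (0 : Site 2)).card -
        (Q R (0 : Site 2)).card * ∑ y : (Q R (0 : Site 2) : Finset (Site 2)),
          vis (arrW ω (Q R 0)) N y N) := by
    have e1 : ∀ i : ℕ, ∑ x : (Q R (0 : Site 2) : Finset (Site 2)), vis (arrW ω (Q R 0)) N x i =
        ∑ a : (Q R (0 : Site 2) : Finset (Site 2)) → Fin N →
          Option (Q R (0 : Site 2) : Finset (Site 2)), prb (arrW ω (Q R 0)) N a *
          ∑ x : (Q R (0 : Site 2) : Finset (Site 2)),
            (if i ≤ nst (ext a) x then (1 : ℝ) else 0) := by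
      intro i
      simp only [vis]
      rw [Finset.sum_comm]
      refine Finset.sum_congr rfl (fun a _ => ?_)
      rw [← Finset.mul_sum]
    have e2 : ∑ x : (Q R (0 : Site 2) : Finset (Site 2)), (1 - vis (arrW ω (Q R 0)) N x J) =
        ∑ a : (Q R (0 : Site 2) : Finset (Site 2)) → Fin N →
          Option (Q R (0 : Site 2) : Finset (Site 2)), prb (arrW ω (Q R 0)) N a *
          ∑ x : (Q R (0 : Site 2) : Finset (Site 2)),
            (1 - if J ≤ nst (ext a) x then (1 : ℝ) else 0) := by
      simp only [Finset.sum_sub_distrib, mul_sub]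
      rw [← e1 J, ← Finset.sum_mul, hpr1, one_mul]
    have e3 : (ρ / 2 * (Q R (0 : Site 2)).card : ℝ) =
        ∑ a : (Q R (0 : Site 2) : Finset (Site 2)) → Fin N →
          Option (Q R (0 : Site 2) : Finset (Site 2)), prb (arrW ω (Q R 0)) N a *
          (ρ / 2 * (Q R (0 : Site 2)).card) := by
      rw [← Finset.sum_mul, hpr1, one_mul]
    rw [e2, e1 N]
    conv_rhs => rw [e3]
    rw [Finset.mul_sum, ← Finset.sum_sub_distrib, ← Finset.sum_sub_distrib, Finset.mul_sum]
    refine Finset.sum_congr rfl (fun a _ => ?_)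
    ring
  rw [hexp] at havg
  have hfin : (4 * (J + 1) / ρ) * (ρ * (Q R (0 : Site 2)).card - ρ / 2 * (Q R (0 : Site 2)).card -
      (Q R (0 : Site 2)).card * (ρ / 4)) ≤ J * (Q R (0 : Site 2)).card := by
    refine le_trans ?_ havg
    apply mul_le_mul_of_nonneg_left _ hMpos.le
    have h5 : ((Q R (0 : Site 2)).card : ℝ) * ∑ y : (Q R (0 : Site 2) : Finset (Site 2)),
        vis (arrW ω (Q R 0)) N y N ≤ (Q R (0 : Site 2)).card * (ρ / 4) :=
      mul_le_mul_of_nonneg_left hvisN hc.le
    linarith
  have h6 : (4 * (J + 1) / ρ) * (ρ * (Q R (0 : Site 2)).card - ρ / 2 * (Q R (0 : Site 2)).card -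
      (Q R (0 : Site 2)).card * (ρ / 4)) = (J + 1) * (Q R (0 : Site 2)).card := by
    field_simp
    ring
  rw [h6] at hfin
  linarith

end Pool.Agent.Helper13.WP
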